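import Pool.Agent.helper4.T7.SpecQ

set_option autoImplicit false

/-! Row QP2 of project T7 (MP_16912e): one pair, two-sided equidistribution. -/

namespace Pool.Agent.T7

open Finset Pool.Agent.helper3.FT Pool.Agent.T5 Pool.Agent.T6

theorem QP2_e_add (a b : ℝ) : e (a + b) = e a * e b := by
  unfold e
  rw [← Complex.exp_add]
  congr 1
  push_cast
  ring

theorem QP2_e_norm (a : ℝ) : ‖e a‖ = 1 := by
  unfold e
  have h : 2 * (Real.pi : ℂ) * Complex.I * a = ((2 * Real.pi * a : ℝ) : ℂ) * Complex.I := by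
    push_cast
    ring
  rw [h]
  exact Complex.norm_exp_ofReal_mul_I _

theorem QP2_tw_nonneg (L : ℕ) (m : ℤ) : 0 ≤ tw L m := le_max_left _ _

theorem QP2_tw_supp {L : ℕ} (hL : 1 ≤ L) {m : ℤ} (hm : tw L m ≠ 0) : m ∈ Icc (-(2 * L : ℤ)) (2 * L) := by
  have hL' : (0 : ℝ) < L := by exact_mod_cast hL
  have h1 : 0 < tw L m := lt_of_le_of_ne (QP2_tw_nonneg _ _) hm.symm
  unfold tw at h1
  rw [lt_max_iff] at h1
  rcases h1 with h1 | h1
  · exact absurd h1 (lt_irrefl _)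
  · have h2 : 0 < 2 * (L : ℝ) + 1 - |(m : ℝ)| := by
      by_contra hc
      push Not at hc
      exact absurd (div_nonpos_of_nonpos_of_nonneg hc hL'.le) (not_le.2 h1)
    have h2' : |(m : ℝ)| < 2 * L + 1 := by linarith
    have h3 : |m| < 2 * (L : ℤ) + 1 := by exact_mod_cast h2'
    rw [abs_lt] at h3
    rw [mem_Icc]
    omega

theorem QP2_sum_le {ι : Type} (S T : Finset ι) (f : ι → ℝ) (hf : ∀ i, 0 ≤ f i) (h : ∀ i ∈ S, f i ≠ 0 → i ∈ T) :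
    ∑ i ∈ S, f i ≤ ∑ i ∈ T, f i := by
  classical
  rw [← sum_filter_ne_zero S]
  refine sum_le_sum_of_subset_of_nonneg ?_ fun i _ _ => hf i
  intro i hi
  rw [mem_filter] at hi
  exact h i hi.1 hi.2

theorem QP2_shift (P : Finset (ℤ × ℤ)) (f : ℤ × ℤ → ℝ) (d d' : ℤ) :
    ∑ i ∈ P, f (i.1 - d, i.2 - d') = ∑ i ∈ P.image (fun i : ℤ × ℤ => (i.1 - d, i.2 - d')), f i := by
  rw [sum_image]
  intro i _ j _ hij
  have h1 := congrArg Prod.fst hij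
  have h2 := congrArg Prod.snd hij
  simp only at h1 h2
  exact Prod.ext (by omega) (by omega)

/-- the four sums -/
theorem QP2_quad (P : Finset (ℤ × ℤ)) (J K : Finset ℤ) (a b : ℝ) (F G : ℤ → ℤ → ℝ) :
    ∑ i ∈ P, (a * ∑ j ∈ J, F i.1 j) * (b * ∑ j ∈ K, G i.2 j) =
      a * b * ∑ j ∈ J, ∑ j' ∈ K, ∑ i ∈ P, F i.1 j * G i.2 j' := by
  have h1 : ∀ i ∈ P, (a * ∑ j ∈ J, F i.1 j) * (b * ∑ j ∈ K, G i.2 j) = a * b * ∑ j ∈ J, ∑ j' ∈ K, F i.1 j * G i.2 j' := by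
    intro i _
    rw [← sum_mul_sum]
    ring
  rw [sum_congr rfl h1, ← mul_sum]
  congr 1
  rw [sum_comm]
  refine sum_congr rfl fun j _ => ?_
  rw [sum_comm]

/-- numerical part, upper bound -/
theorem QP2_up {L L' M G l η B J K N : ℝ} (hL : 1 ≤ L) (hL' : 1 ≤ L') (hM : 0 < M) (hG : 0 < G) (hl : 0 < l) (hη : 0 < η)
    (hB : 0 ≤ B) (hJ : 0 ≤ J) (hK : 0 ≤ K) (h1 : J * (2 * L + 1) ≤ M + 8 * L) (h2 : K * (2 * L' + 1) ≤ G + 8 * L')
    (hN : N ≤ L / (2 * L + 1) * (L' / (2 * L' + 1)) * (J * (K * ((1 + η) * ((2 * L + 1) ^ 2 / L * ((2 * L' + 1) ^ 2 / L') * l) + l * B)))) :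
    N - M * G * l ≤ l * (η * ((M + 8 * L) * (G + 8 * L')) + (8 * L * G + 8 * L' * M + 64 * L * L') +
      B * (M / L + 4) * (G / L' + 4)) := by
  have e1 : L / (2 * L + 1) * (L' / (2 * L' + 1)) * (J * (K * ((1 + η) * ((2 * L + 1) ^ 2 / L * ((2 * L' + 1) ^ 2 / L') * l) + l * B))) =
      (1 + η) * l * ((J * (2 * L + 1)) * (K * (2 * L' + 1))) + l * B * ((J * (L / (2 * L + 1))) * (K * (L' / (2 * L' + 1)))) := by
    have : L ≠ 0 := by positivity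
    have : L' ≠ 0 := by positivity
    have : 2 * L + 1 ≠ 0 := by positivity
    have : 2 * L' + 1 ≠ 0 := by positivity
    field_simp
  have e2 : (J * (2 * L + 1)) * (K * (2 * L' + 1)) ≤ (M + 8 * L) * (G + 8 * L') :=
    mul_le_mul h1 h2 (by positivity) (by positivity)
  have e3 : J * (L / (2 * L + 1)) ≤ M / L + 4 := by
    have h3 : J * (L / (2 * L + 1)) ≤ J := by
      refine mul_le_of_le_one_right hJ ?_
      rw [div_le_one (by positivity)]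
      linarith
    refine h3.trans ?_
    have h4 : J * (2 * L) ≤ M + 8 * L := le_trans (mul_le_mul_of_nonneg_left (by linarith) hJ) h1
    have h5 : M / L + 4 = (M + 4 * L) / L := by
      have : L ≠ 0 := by positivity
      field_simp
    rw [h5, le_div_iff₀ (by positivity)]
    nlinarith
  have e4 : K * (L' / (2 * L' + 1)) ≤ G / L' + 4 := by
    have h3 : K * (L' / (2 * L' + 1)) ≤ K := by
      refine mul_le_of_le_one_right hK ?_
      rw [div_le_one (by positivity)]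
      linarith
    refine h3.trans ?_
    have h4 : K * (2 * L') ≤ G + 8 * L' := le_trans (mul_le_mul_of_nonneg_left (by linarith) hK) h2
    have h5 : G / L' + 4 = (G + 4 * L') / L' := by
      have : L' ≠ 0 := by positivity
      field_simp
    rw [h5, le_div_iff₀ (by positivity)]
    nlinarith
  have e5 : (J * (L / (2 * L + 1))) * (K * (L' / (2 * L' + 1))) ≤ (M / L + 4) * (G / L' + 4) :=
    mul_le_mul e3 e4 (by positivity) (by positivity)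
  have e6 := mul_le_mul_of_nonneg_left e2 (show 0 ≤ (1 + η) * l by positivity)
  have e7 := mul_le_mul_of_nonneg_left e5 (show 0 ≤ l * B by positivity)
  rw [e1] at hN
  nlinarith

/-- numerical part, lower bound -/
theorem QP2_lo {L L' M G l η B J K N : ℝ} (hL : 1 ≤ L) (hL' : 1 ≤ L') (hM : 0 < M) (hG : 0 < G) (hl : 0 < l) (hη : 0 < η)
    (hη1 : η ≤ 1) (hB : 0 ≤ B) (hJ : 0 ≤ J) (hK : 0 ≤ K) (h1 : M - 8 * L ≤ J * (2 * L + 1)) (h2 : G - 8 * L' ≤ K * (2 * L' + 1))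
    (h3 : J * (2 * L + 1) ≤ M) (h4 : K * (2 * L' + 1) ≤ G)
    (hN : L / (2 * L + 1) * (L' / (2 * L' + 1)) * (J * (K * ((1 - η) * ((2 * L + 1) ^ 2 / L * ((2 * L' + 1) ^ 2 / L') * l) - l * B))) ≤ N) :
    M * G * l - N ≤ l * (η * ((M + 8 * L) * (G + 8 * L')) + (8 * L * G + 8 * L' * M + 64 * L * L') +
      B * (M / L + 4) * (G / L' + 4)) := by
  have e1 : L / (2 * L + 1) * (L' / (2 * L' + 1)) * (J * (K * ((1 - η) * ((2 * L + 1) ^ 2 / L * ((2 * L' + 1) ^ 2 / L') * l) - l * B))) =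
      (1 - η) * l * ((J * (2 * L + 1)) * (K * (2 * L' + 1))) - l * B * ((J * (L / (2 * L + 1))) * (K * (L' / (2 * L' + 1)))) := by
    have : L ≠ 0 := by positivity
    have : L' ≠ 0 := by positivity
    have : 2 * L + 1 ≠ 0 := by positivity
    have : 2 * L' + 1 ≠ 0 := by positivity
    field_simp
  obtain ⟨p, hp⟩ : ∃ p, p = J * (2 * L + 1) := ⟨_, rfl⟩
  obtain ⟨r, hr⟩ : ∃ r, r = K * (2 * L' + 1) := ⟨_, rfl⟩
  have hp0 : 0 ≤ p := by rw [hp]; positivity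
  have hr0 : 0 ≤ r := by rw [hr]; positivity
  rw [← hp] at h1 h3
  rw [← hr] at h2 h4
  rw [e1, ← hp, ← hr] at hN
  have e2 : M * G - 8 * L * G - 8 * L' * M ≤ p * r := by
    by_cases c1 : 8 * L ≤ M
    · by_cases c2 : 8 * L' ≤ G
      · have := mul_le_mul h1 h2 (by linarith) hp0
        nlinarith [mul_pos (show 0 < L by linarith) (show 0 < L' by linarith)]
      · push Not at c2
        have : M * G < M * (8 * L') := mul_lt_mul_of_pos_left c2 hM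
        nlinarith [mul_nonneg hp0 hr0, mul_pos (show 0 < L by linarith) hG]
    · push Not at c1
      have : M * G < (8 * L) * G := mul_lt_mul_of_pos_right c1 hG
      nlinarith [mul_nonneg hp0 hr0, mul_pos (show 0 < L' by linarith) hM]
  have e2' : p * r ≤ M * G := mul_le_mul h3 h4 hr0 hM.le
  have e3 : J * (L / (2 * L + 1)) ≤ M / L + 4 := by
    have h3' : J * (L / (2 * L + 1)) ≤ J := by
      refine mul_le_of_le_one_right hJ ?_
      rw [div_le_one (by positivity)]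
      linarith
    refine h3'.trans ?_
    have h4 : J * L ≤ M := le_trans (mul_le_mul_of_nonneg_left (by linarith) hJ) (hp ▸ h3)
    have h5 : J ≤ M / L := by
      rw [le_div_iff₀ (by positivity)]
      exact h4
    linarith
  have e4 : K * (L' / (2 * L' + 1)) ≤ G / L' + 4 := by
    have h3' : K * (L' / (2 * L' + 1)) ≤ K := by
      refine mul_le_of_le_one_right hK ?_
      rw [div_le_one (by positivity)]
      linarith
    refine h3'.trans ?_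
    have h4 : K * L' ≤ G := le_trans (mul_le_mul_of_nonneg_left (by linarith) hK) (hr ▸ h4)
    have h5 : K ≤ G / L' := by
      rw [le_div_iff₀ (by positivity)]
      exact h4
    linarith
  have e5 : (J * (L / (2 * L + 1))) * (K * (L' / (2 * L' + 1))) ≤ (M / L + 4) * (G / L' + 4) :=
    mul_le_mul e3 e4 (by positivity) (by positivity)
  have e7 := mul_le_mul_of_nonneg_left e5 (show 0 ≤ l * B by positivity)
  have e8 := mul_le_mul_of_nonneg_left e2 hl.le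
  have e9 : η * l * (p * r) ≤ η * l * (M * G) := mul_le_mul_of_nonneg_left e2' (by positivity)
  have e10 : η * l * (M * G) ≤ η * l * ((M + 8 * L) * (G + 8 * L')) := by
    refine mul_le_mul_of_nonneg_left ?_ (by positivity)
    exact mul_le_mul (by linarith) (by linarith) hG.le (by linarith)
  have e11 : 0 ≤ l * (64 * L * L') := by positivity
  nlinarith

/-- the combinatorial part -/
theorem QP2_comb (hQTP : QTP_stmt) {L L' : ℕ} (hL : 1 ≤ L) (hL' : 1 ≤ L') (P : Finset (ℤ × ℤ)) {x y x' y' : ℝ}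
    (A : ℤ → ℤ → Prop) (hP : ∀ m g : ℤ, (m, g) ∈ P ↔ (x < m ∧ (m : ℝ) ≤ y) ∧ (x' < g ∧ (g : ℝ) ≤ y') ∧ A m g)
    (hxy : x < y) (hxy' : x' < y') {l B η : ℝ} (hl : 0 < l) (hB : 0 ≤ B) (hη : 0 < η) (hη1 : η ≤ 1)
    (S : ℤ → ℤ → Finset (ℤ × ℤ))
    (hS : ∀ j j' : ℤ, ∀ i : ℤ × ℤ, i ∈ S j j' ↔ (i ∈ Icc (-(2 * L : ℤ)) (2 * L) ×ˢ Icc (-(2 * L' : ℤ)) (2 * L') ∧
      A (i.1 + j * (2 * L + 1)) (i.2 + j' * (2 * L' + 1))))
    (hA : ∀ j j' : ℤ, |∑ i ∈ S j j', tw L i.1 * tw L' i.2 - ((2 * L + 1) ^ 2 / L * ((2 * L' + 1) ^ 2 / L') * l)| ≤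
      η * ((2 * L + 1) ^ 2 / L * ((2 * L' + 1) ^ 2 / L') * l) + l * B) :
    |(P.card : ℝ) - (y - x) * (y' - x') * l| ≤ l * (η * (((y - x) + 8 * L) * ((y' - x') + 8 * L')) +
      (8 * L * (y' - x') + 8 * L' * (y - x) + 64 * L * L') + B * ((y - x) / L + 4) * ((y' - x') / L' + 4)) := by
  classical
  obtain ⟨J, J', a1, a2, a3, a4, a5, a6, -⟩ := hQTP L x y hL hxy
  obtain ⟨K, K', b1, b2, b3, b4, b5, b6, -⟩ := hQTP L' x' y' hL' hxy'
  have hLr : (1 : ℝ) ≤ L := by exact_mod_cast hL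
  have hLr' : (1 : ℝ) ≤ L' := by exact_mod_cast hL'
  have hw0 : ∀ i : ℤ × ℤ, 0 ≤ tw L i.1 * tw L' i.2 := fun i => mul_nonneg (QP2_tw_nonneg _ _) (QP2_tw_nonneg _ _)
  -- sums over `P` of one tent
  have hle : ∀ j j' : ℤ, ∑ i ∈ P, tw L (i.1 - j * (2 * L + 1)) * tw L' (i.2 - j' * (2 * L' + 1)) ≤
      ∑ i ∈ S j j', tw L i.1 * tw L' i.2 := by
    intro j j'
    have h1 := QP2_shift P (fun i => tw L i.1 * tw L' i.2) (j * (2 * L + 1)) (j' * (2 * L' + 1))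
    simp only at h1
    rw [h1]
    refine QP2_sum_le _ _ _ hw0 ?_
    intro i hi hne
    obtain ⟨u, hu, rfl⟩ := mem_image.1 hi
    simp only at hne
    rw [hS]
    refine ⟨mem_product.2 ⟨QP2_tw_supp hL (left_ne_zero_of_mul hne), QP2_tw_supp hL' (right_ne_zero_of_mul hne)⟩, ?_⟩
    simp only [sub_add_cancel]
    exact ((hP u.1 u.2).1 hu).2.2
  have hge : ∀ j ∈ J', ∀ j' ∈ K', ∑ i ∈ S j j', tw L i.1 * tw L' i.2 ≤
      ∑ i ∈ P, tw L (i.1 - j * (2 * L + 1)) * tw L' (i.2 - j' * (2 * L' + 1)) := by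
    intro j hj j' hj'
    have h1 := QP2_shift P (fun i => tw L i.1 * tw L' i.2) (j * (2 * L + 1)) (j' * (2 * L' + 1))
    simp only at h1
    rw [h1]
    refine QP2_sum_le _ _ _ hw0 ?_
    intro i hi hne
    rw [hS] at hi
    refine mem_image.2 ⟨(i.1 + j * (2 * L + 1), i.2 + j' * (2 * L' + 1)), ?_, ?_⟩
    · rw [hP]
      refine ⟨?_, ?_, hi.2⟩
      · by_contra hc
        have h2 := a6 _ hc
        have h3 := (sum_eq_zero_iff_of_nonneg (fun _ _ => QP2_tw_nonneg _ _)).1 h2 j hj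
        simp only [add_sub_cancel_right] at h3
        exact left_ne_zero_of_mul hne h3
      · by_contra hc
        have h2 := b6 _ hc
        have h3 := (sum_eq_zero_iff_of_nonneg (fun _ _ => QP2_tw_nonneg _ _)).1 h2 j' hj'
        simp only [add_sub_cancel_right] at h3
        exact right_ne_zero_of_mul hne h3
    · simp only [add_sub_cancel_right]
  rw [abs_le]
  constructor
  · -- lower bound
    rw [neg_le, neg_sub]
    refine QP2_lo hLr hLr' (sub_pos.2 hxy) (sub_pos.2 hxy') hl hη hη1 hB (Nat.cast_nonneg J'.card)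
      (Nat.cast_nonneg K'.card) a2 b2 a3 b3 ?_
    have h1 : ∑ i ∈ P, ((L : ℝ) / (2 * L + 1) * ∑ j ∈ J', tw L (i.1 - j * (2 * L + 1))) *
        ((L' : ℝ) / (2 * L' + 1) * ∑ j ∈ K', tw L' (i.2 - j * (2 * L' + 1))) ≤ P.card := by
      have hPc : (P.card : ℝ) = ∑ i ∈ P, (1 : ℝ) := by simp
      rw [hPc]
      refine sum_le_sum fun i _ => ?_
      have h2 : 0 ≤ (L' : ℝ) / (2 * L' + 1) * ∑ j ∈ K', tw L' (i.2 - j * (2 * L' + 1)) :=
        mul_nonneg (by positivity) (sum_nonneg fun _ _ => QP2_tw_nonneg _ _)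
      exact mul_le_one₀ (a5 i.1) h2 (b5 i.2)
    refine le_trans ?_ h1
    rw [QP2_quad P J' K' ((L : ℝ) / (2 * L + 1)) ((L' : ℝ) / (2 * L' + 1)) (fun m j => tw L (m - j * (2 * L + 1)))
      (fun g j => tw L' (g - j * (2 * L' + 1)))]
    refine mul_le_mul_of_nonneg_left ?_ (by positivity)
    rw [← nsmul_eq_mul, ← sum_const]
    refine sum_le_sum fun j hj => ?_
    rw [← nsmul_eq_mul, ← sum_const]
    refine sum_le_sum fun j' hj' => ?_
    have h3 := (abs_le.1 (hA j j')).1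
    have h4 := hge j hj j' hj'
    linarith
  · refine QP2_up hLr hLr' (sub_pos.2 hxy) (sub_pos.2 hxy') hl hη hB (Nat.cast_nonneg J.card)
      (Nat.cast_nonneg K.card) a1 b1 ?_
    have h1 : (P.card : ℝ) ≤ ∑ i ∈ P, ((L : ℝ) / (2 * L + 1) * ∑ j ∈ J, tw L (i.1 - j * (2 * L + 1))) *
        ((L' : ℝ) / (2 * L' + 1) * ∑ j ∈ K, tw L' (i.2 - j * (2 * L' + 1))) := by
      have hPc : (P.card : ℝ) = ∑ i ∈ P, (1 : ℝ) := by simp
      rw [hPc]
      refine sum_le_sum fun i hi => ?_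
      obtain ⟨c1, c2, -⟩ := (hP i.1 i.2).1 hi
      exact one_le_mul_of_one_le_of_one_le (a4 i.1 c1.1 c1.2) (b4 i.2 c2.1 c2.2)
    refine h1.trans ?_
    rw [QP2_quad P J K ((L : ℝ) / (2 * L + 1)) ((L' : ℝ) / (2 * L' + 1)) (fun m j => tw L (m - j * (2 * L + 1)))
      (fun g j => tw L' (g - j * (2 * L' + 1)))]
    refine mul_le_mul_of_nonneg_left ?_ (by positivity)
    rw [← nsmul_eq_mul, ← sum_const]
    refine sum_le_sum fun j hj => ?_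
    rw [← nsmul_eq_mul, ← sum_const]
    refine sum_le_sum fun j' hj' => ?_
    have h3 := (abs_le.1 (hA j j')).2
    have h4 := hle j j'
    linarith

/-- the exponential sums -/
theorem QP2_expo {C₀ : ℝ} (hC₀ : 1 ≤ C₀) (hW : ∀ (L L' : ℕ) (c : Fin 5 → ℝ), 1 ≤ L → 1 ≤ L' →
      ‖TS L L' c‖ ^ 2 ≤ C₀ * L * L' * ((nearPts L L' (c 0) (c 1) (c 2)).card : ℝ))
    {n k q e' : ℕ} (hn : 1 ≤ n) (hk : 1 ≤ k) (he' : 1 ≤ e') (hd : e' ∣ q) (α β γ A A' c₀ : ℤ) (L L' h : ℕ)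
    (hL : 1 ≤ L) (hL' : 1 ≤ L') :
    ‖∑ i ∈ Icc (-(2 * L : ℤ)) (2 * L) ×ˢ Icc (-(2 * L' : ℤ)) (2 * L'), ((tw L i.1 * tw L' i.2 : ℝ) : ℂ) *
      e (h * (((α * (A + q * i.1) ^ 2 + β * (A + q * i.1) * (A' + q * i.2) + γ * (A' + q * i.2) ^ 2 + c₀ : ℤ) : ℝ) /
        ((n : ℝ) ^ 3 * k * e')))‖ ≤ √C₀ * (√((L : ℝ) * L') *
      √((nearPts L L' ((h * (q * (q / e')) : ℕ) * α / ((n : ℝ) ^ 3 * k)) ((h * (q * (q / e')) : ℕ) * β / ((n : ℝ) ^ 3 * k))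
          ((h * (q * (q / e')) : ℕ) * γ / ((n : ℝ) ^ 3 * k))).card : ℝ)) := by
  obtain ⟨f, rfl⟩ := hd
  have hf : e' * f / e' = f := Nat.mul_div_cancel_left f (by omega)
  rw [hf]
  have hn0 : (0 : ℝ) < n := by exact_mod_cast hn
  have hk0 : (0 : ℝ) < k := by exact_mod_cast hk
  have he0 : (0 : ℝ) < e' := by exact_mod_cast he'
  set Q : ℝ := (n : ℝ) ^ 3 * k * e' with hQ
  have hQ0 : 0 < Q := by positivity
  set c : Fin 5 → ℝ := ![((h * (e' * f * f) : ℕ) : ℝ) * α / ((n : ℝ) ^ 3 * k),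
      ((h * (e' * f * f) : ℕ) : ℝ) * β / ((n : ℝ) ^ 3 * k), ((h * (e' * f * f) : ℕ) : ℝ) * γ / ((n : ℝ) ^ 3 * k),
      h * ((2 * α * A * (e' * f) + β * (e' * f) * A') / Q), h * ((β * A * (e' * f) + 2 * γ * A' * (e' * f)) / Q)] with hc
  have hc0 : c 0 = ((h * (e' * f * f) : ℕ) : ℝ) * α / ((n : ℝ) ^ 3 * k) := rfl
  have hc1 : c 1 = ((h * (e' * f * f) : ℕ) : ℝ) * β / ((n : ℝ) ^ 3 * k) := rfl
  have hc2 : c 2 = ((h * (e' * f * f) : ℕ) : ℝ) * γ / ((n : ℝ) ^ 3 * k) := rfl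
  have hc3 : c 3 = h * ((2 * α * A * (e' * f) + β * (e' * f) * A') / Q) := rfl
  have hc4 : c 4 = h * ((β * A * (e' * f) + 2 * γ * A' * (e' * f)) / Q) := rfl
  have h1 : ∑ i ∈ Icc (-(2 * L : ℤ)) (2 * L) ×ˢ Icc (-(2 * L' : ℤ)) (2 * L'), ((tw L i.1 * tw L' i.2 : ℝ) : ℂ) *
      e (h * (((α * (A + (e' * f : ℕ) * i.1) ^ 2 + β * (A + (e' * f : ℕ) * i.1) * (A' + (e' * f : ℕ) * i.2) +
        γ * (A' + (e' * f : ℕ) * i.2) ^ 2 + c₀ : ℤ) : ℝ) / Q)) =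
      TS L L' c * e (h * ((α * A ^ 2 + β * A * A' + γ * A' ^ 2 + c₀) / Q)) := by
    unfold TS
    rw [sum_product, sum_mul]
    refine sum_congr rfl fun m _ => ?_
    rw [sum_mul]
    refine sum_congr rfl fun g _ => ?_
    have h2 : (h : ℝ) * (((α * (A + (e' * f : ℕ) * m) ^ 2 + β * (A + (e' * f : ℕ) * m) * (A' + (e' * f : ℕ) * g) +
        γ * (A' + (e' * f : ℕ) * g) ^ 2 + c₀ : ℤ) : ℝ) / Q) =
        (c 0 * m ^ 2 + c 1 * m * g + c 2 * g ^ 2 + c 3 * m + c 4 * g) + h * ((α * A ^ 2 + β * A * A' + γ * A' ^ 2 + c₀) / Q) := by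
      rw [hc0, hc1, hc2, hc3, hc4, hQ]
      push_cast
      field_simp
      ring
    rw [h2, QP2_e_add]
    ring
  rw [h1, norm_mul, QP2_e_norm, mul_one]
  have h3 := hW L L' c hL hL'
  rw [hc0, hc1, hc2] at h3
  have hLL : (0 : ℝ) ≤ (L : ℝ) * L' := by positivity
  refine abs_le_of_sq_le_sq' ?_ (by positivity) |>.2
  rw [mul_pow, mul_pow, Real.sq_sqrt (by linarith), Real.sq_sqrt hLL, Real.sq_sqrt (by positivity)]
  refine h3.trans (le_of_eq ?_)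
  ring

/-- the points of one pair -/
theorem QP2_pts {n k q e' : ℕ} (hn : 1 ≤ n) (hk : 1 ≤ k) (hq : 1 ≤ q) (he' : 1 ≤ e') {α β γ c₀ c₂ c₃ c₄ : ℤ}
    (hc : ∀ m g z : ℤ, (IsT ((n, k), (m, g, z)) ∧ (e' : ℤ) ∣ RR ((n, k), (m, g, z)) - c₄) ↔
      (n : ℤ) ^ 3 * k * e' ∣ z - (α * m ^ 2 + β * m * g + γ * g ^ 2 + c₀))
    {m₁ m₂ g₁ g₂ z₁ z₂ : ℝ} (hz : z₁ < z₂) (h4 : 4 * (z₂ - z₁) ≤ (n : ℝ) ^ 3 * k * e') (F : Finset Tpl)
    (hF : ∀ t, t ∈ F ↔ (IsT t ∧ t.1 = (n, k) ∧ m₁ < t.2.1 ∧ (t.2.1 : ℝ) ≤ m₂ ∧ g₁ < t.2.2.1 ∧ (t.2.2.1 : ℝ) ≤ g₂ ∧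
      z₁ < t.2.2.2 ∧ (t.2.2.2 : ℝ) ≤ z₂ ∧
        (q : ℤ) ∣ t.2.1 - c₂ ∧ (q : ℤ) ∣ t.2.2.1 - c₃ ∧ (e' : ℤ) ∣ RR t - c₄)) :
    ∃ P : Finset (ℤ × ℤ), P.card = F.card ∧ ∀ m g : ℤ, (m, g) ∈ P ↔
      ((m₁ - c₂) / q < m ∧ (m : ℝ) ≤ (m₂ - c₂) / q) ∧ ((g₁ - c₃) / q < g ∧ (g : ℝ) ≤ (g₂ - c₃) / q) ∧
      ∃ z : ℤ, z₁ / ((n : ℝ) ^ 3 * k * e') <
          ((α * (c₂ + q * m) ^ 2 + β * (c₂ + q * m) * (c₃ + q * g) + γ * (c₃ + q * g) ^ 2 + c₀ : ℤ) : ℝ) /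
            ((n : ℝ) ^ 3 * k * e') - z ∧
        ((α * (c₂ + q * m) ^ 2 + β * (c₂ + q * m) * (c₃ + q * g) + γ * (c₃ + q * g) ^ 2 + c₀ : ℤ) : ℝ) /
            ((n : ℝ) ^ 3 * k * e') - z ≤ z₁ / ((n : ℝ) ^ 3 * k * e') + (z₂ - z₁) / ((n : ℝ) ^ 3 * k * e') := by
  classical
  have hn0 : (0 : ℝ) < n := by exact_mod_cast hn
  have hk0 : (0 : ℝ) < k := by exact_mod_cast hk
  have he0 : (0 : ℝ) < e' := by exact_mod_cast he'
  have hq0 : (0 : ℝ) < q := by exact_mod_cast hq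
  have hqz : (q : ℤ) ≠ 0 := by exact_mod_cast (show q ≠ 0 by omega)
  obtain ⟨Q, hQ⟩ : ∃ Q : ℝ, Q = (n : ℝ) ^ 3 * k * e' := ⟨_, rfl⟩
  have hQ0 : 0 < Q := by rw [hQ]; positivity
  rw [← hQ] at h4
  rw [← hQ]
  have hdiv : z₁ / Q + (z₂ - z₁) / Q = z₂ / Q := by ring
  rw [hdiv]
  refine ⟨F.image (fun t : Tpl => ((t.2.1 - c₂) / (q : ℤ), (t.2.2.1 - c₃) / (q : ℤ))), ?_, ?_⟩
  · refine card_image_of_injOn ?_
    intro t ht t' ht' hE
    have hE1 : (t.2.1 - c₂) / (q : ℤ) = (t'.2.1 - c₂) / (q : ℤ) := congrArg Prod.fst hE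
    have hE2 : (t.2.2.1 - c₃) / (q : ℤ) = (t'.2.2.1 - c₃) / (q : ℤ) := congrArg Prod.snd hE
    obtain ⟨u1, u2, -, -, -, -, u3, u4, u5, u6, u7⟩ := (hF t).1 ht
    obtain ⟨v1, v2, -, -, -, -, v3, v4, v5, v6, v7⟩ := (hF t').1 ht'
    have s1 : t.2.1 = t'.2.1 := by
      have := Int.ediv_mul_cancel u5
      have := Int.ediv_mul_cancel v5
      rw [hE1] at *
      linarith
    have s2 : t.2.2.1 = t'.2.2.1 := by
      have := Int.ediv_mul_cancel u6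
      have := Int.ediv_mul_cancel v6
      rw [hE2] at *
      linarith
    obtain ⟨⟨a, b⟩, m, g, z⟩ := t
    obtain ⟨⟨a', b'⟩, m', g', z'⟩ := t'
    simp only at s1 s2 u2 v2 u3 u4 v3 v4
    subst s1 s2
    obtain ⟨rfl, rfl⟩ := Prod.mk.inj u2
    obtain ⟨rfl, rfl⟩ := Prod.mk.inj v2
    have d1 := (hc m g z).1 ⟨u1, u7⟩
    have d2 := (hc m g z').1 ⟨v1, v7⟩
    have d3 : (a' : ℤ) ^ 3 * b' * e' ∣ z - z' := by
      have := dvd_sub d1 d2
      rwa [show z - (α * m ^ 2 + β * m * g + γ * g ^ 2 + c₀) - (z' - (α * m ^ 2 + β * m * g + γ * g ^ 2 + c₀)) = z - z' by ring] at this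
    obtain ⟨w, hw⟩ := d3
    have hwr : (z : ℝ) - z' = Q * w := by
      rw [hQ]
      exact_mod_cast hw
    have hw0 : w = 0 := by
      by_contra hne
      have h5 : (1 : ℝ) ≤ |(w : ℝ)| := by
        have := Int.one_le_abs hne
        exact_mod_cast this
      have h6 : |(z : ℝ) - z'| = Q * |(w : ℝ)| := by rw [hwr, abs_mul, abs_of_pos hQ0]
      have h7 : |(z : ℝ) - z'| ≤ z₂ - z₁ := by
        rw [abs_le]
        constructor <;> linarith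
      nlinarith
    rw [hw0, mul_zero, sub_eq_zero] at hw
    rw [hw]
  · intro m g
    constructor
    · intro hm
      obtain ⟨t, ht, hE⟩ := mem_image.1 hm
      obtain ⟨u1, u2, w1, w2, w3, w4, u3, u4, u5, u6, u7⟩ := (hF t).1 ht
      obtain ⟨⟨a, b⟩, m', g', z⟩ := t
      simp only at u2 w1 w2 w3 w4 u3 u4 u5 u6 hE
      obtain ⟨rfl, rfl⟩ := Prod.mk.inj u2
      obtain ⟨E1, E2⟩ := Prod.mk.inj hE
      have s1 : m' = c₂ + q * m := by
        have := Int.ediv_mul_cancel u5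
        rw [E1] at this
        linarith
      have s2 : g' = c₃ + q * g := by
        have := Int.ediv_mul_cancel u6
        rw [E2] at this
        linarith
      subst s1 s2
      obtain ⟨w, hw⟩ := (hc _ _ z).1 ⟨u1, u7⟩
      push_cast at w1 w2 w3 w4
      refine ⟨⟨?_, ?_⟩, ⟨?_, ?_⟩, -w, ?_⟩
      · rw [div_lt_iff₀ hq0]; linarith
      · rw [le_div_iff₀ hq0]; linarith
      · rw [div_lt_iff₀ hq0]; linarith
      · rw [le_div_iff₀ hq0]; linarith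
      · have hwr : ((α * (c₂ + q * m) ^ 2 + β * (c₂ + q * m) * (c₃ + q * g) + γ * (c₃ + q * g) ^ 2 + c₀ : ℤ) : ℝ) =
            z - Q * w := by
          have h5 : α * (c₂ + q * m) ^ 2 + β * (c₂ + q * m) * (c₃ + q * g) + γ * (c₃ + q * g) ^ 2 + c₀ =
              z - (a : ℤ) ^ 3 * b * e' * w := by linarith
          rw [h5, hQ]
          push_cast
          ring
        rw [hwr]
        have h6 : ((z : ℝ) - Q * w) / Q - ((-w : ℤ) : ℝ) = z / Q := by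
          push_cast
          field_simp
          ring
        rw [h6]
        exact ⟨div_lt_div_of_pos_right u3 hQ0, div_le_div_of_nonneg_right u4 hQ0.le⟩
    · rintro ⟨⟨x1, x2⟩, ⟨y1, y2⟩, w, hw1, hw2⟩
      rw [div_lt_iff₀ hq0] at x1 y1
      rw [le_div_iff₀ hq0] at x2 y2
      obtain ⟨pl, hpl⟩ : ∃ pl : ℤ, pl = α * (c₂ + q * m) ^ 2 + β * (c₂ + q * m) * (c₃ + q * g) + γ * (c₃ + q * g) ^ 2 + c₀ := ⟨_, rfl⟩
      rw [← hpl] at hw1 hw2
      obtain ⟨z, hz'⟩ : ∃ z : ℤ, z = pl - (n : ℤ) ^ 3 * k * e' * w := ⟨_, rfl⟩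
      have hzr : (z : ℝ) = pl - Q * w := by
        rw [hz', hQ]
        push_cast
        ring
      have hdz : (pl : ℝ) / Q - w = z / Q := by
        rw [hzr]
        field_simp
      rw [hdz] at hw1 hw2
      have k1 : z₁ < z := by
        by_contra hcon
        push Not at hcon
        exact absurd (div_le_div_of_nonneg_right hcon hQ0.le) (not_le.2 hw1)
      have k2 : (z : ℝ) ≤ z₂ := by
        by_contra hcon
        push Not at hcon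
        exact absurd (div_lt_div_of_pos_right hcon hQ0) (not_lt.2 hw2)
      have hd : (n : ℤ) ^ 3 * k * e' ∣ z - (α * (c₂ + q * m) ^ 2 + β * (c₂ + q * m) * (c₃ + q * g) + γ * (c₃ + q * g) ^ 2 + c₀) :=
        ⟨-w, by rw [← hpl, hz']; ring⟩
      obtain ⟨hT, hR⟩ := (hc (c₂ + q * m) (c₃ + q * g) z).2 hd
      refine mem_image.2 ⟨((n, k), (c₂ + q * m, c₃ + q * g, z)), ?_, ?_⟩
      · rw [hF]
        refine ⟨hT, rfl, ?_, ?_, ?_, ?_, k1, k2, ?_, ?_, hR⟩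
        · push_cast; linarith
        · push_cast; linarith
        · push_cast; linarith
        · push_cast; linarith
        · exact ⟨m, by simp only; ring⟩
        · exact ⟨g, by simp only; ring⟩
      · simp only
        refine Prod.ext ?_ ?_
        · simp only
          rw [show c₂ + (q : ℤ) * m - c₂ = q * m by ring, Int.mul_ediv_cancel_left _ hqz]
        · simp only
          rw [show c₃ + (q : ℤ) * g - c₃ = q * g by ring, Int.mul_ediv_cancel_left _ hqz]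

/-- Row QP2. -/
theorem QP2 (hQAR : QAR_stmt) (hQCG : QCG_stmt) (hQTP : QTP_stmt) (hWWY : WWY_stmt) : QP2_stmt := by
  classical
  obtain ⟨C₀, hC₀, hW⟩ := hWWY
  intro η hη hη1
  obtain ⟨R, C₁, hR, hC₁, hQ⟩ := hQAR η hη hη1
  have hs1 : (1 : ℝ) ≤ √C₀ := by rw [Real.one_le_sqrt]; exact hC₀
  refine ⟨R, C₁ * √C₀, hR, by nlinarith, ?_⟩
  intro n k q e' hn hk hq he hcop
  have he' : 1 ≤ e' := Nat.pos_of_ne_zero fun h => by
    rw [h, zero_dvd_iff] at he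
    omega
  obtain ⟨α, β, γ, hres, hcl⟩ := hQCG n k e' hn hk he' hcop
  refine ⟨(α, β, γ), ⟨⟨α, β, γ, hres, by simp, by simp, by simp⟩⟩, ?_⟩
  intro c₂ c₃ c₄ m₁ m₂ g₁ g₂ z₁ z₂ L L' H F hm hg hz hL hL' h4 hRH hF
  obtain ⟨c₀, hc₀⟩ := hcl c₄
  obtain ⟨P, hPc, hP⟩ := QP2_pts hn hk hq he' hc₀ hz h4 F hF
  have hn0 : (0 : ℝ) < n := by exact_mod_cast hn
  have hk0 : (0 : ℝ) < k := by exact_mod_cast hk
  have he0 : (0 : ℝ) < e' := by exact_mod_cast he'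
  have hq0 : (0 : ℝ) < q := by exact_mod_cast hq
  have hLr : (0 : ℝ) < L := by exact_mod_cast hL
  have hLr' : (0 : ℝ) < L' := by exact_mod_cast hL'
  obtain ⟨Q, hQe⟩ : ∃ Q : ℝ, Q = (n : ℝ) ^ 3 * k * e' := ⟨_, rfl⟩
  have hQ0 : 0 < Q := by rw [hQe]; positivity
  rw [← hQe] at hP h4 hRH ⊢
  obtain ⟨l, hle⟩ : ∃ l : ℝ, l = (z₂ - z₁) / Q := ⟨_, rfl⟩
  have hl0 : 0 < l := by rw [hle]; exact div_pos (by linarith) hQ0
  have hl4 : l ≤ 1 / 4 := by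
    rw [hle, div_le_iff₀ hQ0]
    linarith
  have hRl : R ≤ H * l := by
    rw [hle, mul_div_assoc', le_div_iff₀ hQ0]
    exact hRH
  rw [← hle] at hP ⊢
  obtain ⟨S, hSe⟩ : ∃ S : ℝ, S = NS L L' (2 * H + 1) (q * (q / e')) n k (α, β, γ) := ⟨_, rfl⟩
  have hS0 : 0 ≤ S := by
    rw [hSe]
    exact sum_nonneg fun _ _ => Real.sqrt_nonneg _
  have hB0 : 0 ≤ C₁ * √C₀ * (√((L : ℝ) * L') * S) := by positivity
  obtain ⟨-, -, -, -, -, -, -, -, a7⟩ := hQTP L 0 1 hL one_pos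
  obtain ⟨-, -, -, -, -, -, -, -, b7⟩ := hQTP L' 0 1 hL' one_pos
  have hWs : ∑ i ∈ Icc (-(2 * L : ℤ)) (2 * L) ×ˢ Icc (-(2 * L' : ℤ)) (2 * L'), tw L i.1 * tw L' i.2 =
      (2 * (L : ℝ) + 1) ^ 2 / L * ((2 * (L' : ℝ) + 1) ^ 2 / L') := by
    rw [sum_product, ← a7, ← b7, sum_mul_sum]
  have main := QP2_comb hQTP hL hL' P
    (fun m g => ∃ z : ℤ, z₁ / Q < ((α * (c₂ + q * m) ^ 2 + β * (c₂ + q * m) * (c₃ + q * g) + γ * (c₃ + q * g) ^ 2 + c₀ : ℤ) : ℝ) / Q - z ∧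
      ((α * (c₂ + q * m) ^ 2 + β * (c₂ + q * m) * (c₃ + q * g) + γ * (c₃ + q * g) ^ 2 + c₀ : ℤ) : ℝ) / Q - z ≤ z₁ / Q + l)
    hP (div_lt_div_of_pos_right (by linarith) hq0) (div_lt_div_of_pos_right (by linarith) hq0) hl0 hB0 hη hη1
    (fun j j' => (Icc (-(2 * L : ℤ)) (2 * L) ×ˢ Icc (-(2 * L' : ℤ)) (2 * L')).filter (fun i => ∃ z : ℤ, z₁ / Q <
      ((α * (c₂ + q * (i.1 + j * (2 * L + 1))) ^ 2 + β * (c₂ + q * (i.1 + j * (2 * L + 1))) * (c₃ + q * (i.2 + j' * (2 * L' + 1))) +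
        γ * (c₃ + q * (i.2 + j' * (2 * L' + 1))) ^ 2 + c₀ : ℤ) : ℝ) / Q - z ∧
      ((α * (c₂ + q * (i.1 + j * (2 * L + 1))) ^ 2 + β * (c₂ + q * (i.1 + j * (2 * L + 1))) * (c₃ + q * (i.2 + j' * (2 * L' + 1))) +
        γ * (c₃ + q * (i.2 + j' * (2 * L' + 1))) ^ 2 + c₀ : ℤ) : ℝ) / Q - z ≤ z₁ / Q + l))
    (fun j j' i => mem_filter) ?_
  · have x1 : (m₂ - c₂) / q - (m₁ - c₂) / q = (m₂ - m₁) / q := by ring
    have x2 : (g₂ - c₃) / q - (g₁ - c₃) / q = (g₂ - g₁) / q := by ring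
    rw [x1, x2, hPc] at main
    refine main.trans (le_of_eq ?_)
    have x3 : (m₂ - m₁) / q / L = (m₂ - m₁) / (q * L) := by rw [div_div]
    have x4 : (g₂ - g₁) / q / L' = (g₂ - g₁) / (q * L') := by rw [div_div]
    rw [x3, x4, ← hSe]
    ring
  · intro j j'
    have hq' := hQ (Icc (-(2 * L : ℤ)) (2 * L) ×ˢ Icc (-(2 * L' : ℤ)) (2 * L')) (fun i => tw L i.1 * tw L' i.2)
      (fun i => ((α * (c₂ + q * (i.1 + j * (2 * L + 1))) ^ 2 + β * (c₂ + q * (i.1 + j * (2 * L + 1))) * (c₃ + q * (i.2 + j' * (2 * L' + 1))) +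
        γ * (c₃ + q * (i.2 + j' * (2 * L' + 1))) ^ 2 + c₀ : ℤ) : ℝ) / Q) (z₁ / Q) l H hl0 hl4 hRl
      (fun i _ => mul_nonneg (QP2_tw_nonneg _ _) (QP2_tw_nonneg _ _))
    rw [hWs] at hq'
    refine hq'.trans (add_le_add le_rfl ?_)
    rw [← mul_sum, mul_left_comm]
    refine mul_le_mul_of_nonneg_left ?_ hl0.le
    rw [mul_assoc]
    refine mul_le_mul_of_nonneg_left ?_ (by linarith)
    rw [hSe]
    unfold NS
    rw [mul_sum, mul_sum]
    have hI : Icc 1 (2 * H) = Ico 1 (2 * H + 1) := by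
      ext i
      rw [mem_Icc, mem_Ico]
      omega
    rw [hI]
    refine sum_le_sum fun h _ => ?_
    have key := QP2_expo hC₀ hW hn hk he' he α β γ (c₂ + q * (j * (2 * L + 1))) (c₃ + q * (j' * (2 * L' + 1))) c₀ L L' h hL hL'
    rw [← hQe] at key
    refine le_trans (le_of_eq ?_) key
    congr 1
    refine sum_congr rfl fun i _ => ?_
    have r1 : α * (c₂ + q * (i.1 + j * (2 * L + 1))) ^ 2 + β * (c₂ + q * (i.1 + j * (2 * L + 1))) * (c₃ + q * (i.2 + j' * (2 * L' + 1))) +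
        γ * (c₃ + q * (i.2 + j' * (2 * L' + 1))) ^ 2 + c₀ =
      α * ((c₂ + q * (j * (2 * L + 1))) + q * i.1) ^ 2 +
        β * ((c₂ + q * (j * (2 * L + 1))) + q * i.1) * ((c₃ + q * (j' * (2 * L' + 1))) + q * i.2) +
        γ * ((c₃ + q * (j' * (2 * L' + 1))) + q * i.2) ^ 2 + c₀ := by ring
    rw [r1]

end Pool.Agent.T7
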