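import Pool.Agent.helper46.T7.SpecC

set_option autoImplicit false

/-! Row CTB of project T7 (MP_16912e): bad primes dividing the conductor. -/

namespace Pool.Agent.T7

open Finset NumberField Pool.Agent.helper3.FT Pool.Agent.helper47.RA Pool.Agent.T5 Pool.Agent.T6
open Pool.Agent.helper26.T5 (nn LEMB LP HCL HGA LYT LAW)
open Pool.Agent.helper28.LT (rad)

/-- the powers of `ρ` -/
theorem CTB_pow {ρ : ℝ} (h0 : 0 < ρ) (h1 : ρ ≤ 1) :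
    ρ ^ (3 / 2 : ℝ) * ((ρ ^ (-(1.05 : ℝ))) * ((ρ ^ (-(1.05 : ℝ))) ^ (1 / 4 : ℝ) * (1 + ρ ^ (-(1.05 : ℝ)) * ρ))) ≤
      2 * ρ ^ (1 / 8 : ℝ) := by
  have e1 : ρ ^ (3 / 2 : ℝ) * ((ρ ^ (-(1.05 : ℝ))) * ((ρ ^ (-(1.05 : ℝ))) ^ (1 / 4 : ℝ) * (1 + ρ ^ (-(1.05 : ℝ)) * ρ))) =
      ρ ^ (3 / 16 : ℝ) + ρ ^ (11 / 80 : ℝ) := by
    have h2 : (ρ ^ (-(1.05 : ℝ))) ^ (1 / 4 : ℝ) = ρ ^ (-(21 / 80) : ℝ) := by
      rw [← Real.rpow_mul h0.le]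
      norm_num
    have h3 : ρ ^ (-(1.05 : ℝ)) * ρ = ρ ^ (-(1 / 20) : ℝ) := by
      conv_lhs => rw [← Real.rpow_one ρ, ← Real.rpow_mul h0.le, ← Real.rpow_add h0]
      norm_num
    rw [h2, h3]
    have h4 : ρ ^ (-(1.05 : ℝ)) = ρ ^ (-(21 / 20) : ℝ) := by norm_num
    rw [h4, mul_add, mul_one, mul_add, mul_add]
    congr 1
    · rw [← Real.rpow_add h0, ← Real.rpow_add h0]
      norm_num
    · rw [← Real.rpow_add h0, ← Real.rpow_add h0, ← Real.rpow_add h0]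
      norm_num
  rw [e1]
  have h5 : ρ ^ (3 / 16 : ℝ) ≤ ρ ^ (1 / 8 : ℝ) := Real.rpow_le_rpow_of_exponent_ge h0 h1 (by norm_num)
  have h6 : ρ ^ (11 / 80 : ℝ) ≤ ρ ^ (1 / 8 : ℝ) := Real.rpow_le_rpow_of_exponent_ge h0 h1 (by norm_num)
  linarith

/-- Row CTB. -/
theorem CTB : CTB_stmt := by
  classical
  intro hTWE
  obtain ⟨η₁, hη₁, hT⟩ := hTWE
  have hSTW := STW AIST
  refine ⟨min (η₁ / 2) (1 / 100), lt_min (by linarith) (by norm_num), min_le_right _ _, ?_⟩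
  intro κ hκ hκ1
  obtain ⟨C₀, hC₀, hT⟩ := hT κ hκ hκ1
  obtain ⟨C₁, N₁, hC₁, hT⟩ := hT 1 le_rfl
  have hsm : Summable fun n : ℕ => 1 / (n : ℝ) ^ (3 / 2 : ℝ) := Real.summable_one_div_nat_rpow.2 (by norm_num)
  obtain ⟨Z, hZ⟩ : ∃ Z : ℝ, Z = ∑' n : ℕ, 1 / (n : ℝ) ^ (3 / 2 : ℝ) := ⟨_, rfl⟩
  have hZ0 : 0 ≤ Z := by
    rw [hZ]
    exact tsum_nonneg fun n => by positivity
  refine ⟨C₀ * Z + 2 * C₁, max N₁ 1, by nlinarith [mul_nonneg (show 0 ≤ C₀ by linarith) hZ0], ?_⟩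
  intro N Y Y₂ hN hRg F hF
  obtain ⟨η, hη⟩ : ∃ η, η = min (η₁ / 2) (1 / 100) := ⟨_, rfl⟩
  rw [← hη] at hRg
  have hη0 : 0 < η := by rw [hη]; exact lt_min (by linarith) (by norm_num)
  have hη2 : η ≤ η₁ / 2 := by rw [hη]; exact min_le_left _ _
  have hN1 : 1 ≤ N := (le_max_right _ _).trans hN
  have hN0 : 0 < N := by linarith
  have hNN : N₁ ≤ N := (le_max_left _ _).trans hN
  have hS0 : 0 < Y * Y₂ := lt_of_lt_of_le (Real.rpow_pos_of_pos hN0 _) hRg.r4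
  obtain ⟨ρ, hρ⟩ : ∃ ρ, ρ = Y * Y₂ / N := ⟨_, rfl⟩
  rw [← hρ] at hF ⊢
  have hρ0 : 0 < ρ := by rw [hρ]; exact div_pos hS0 hN0
  have hρ1 : ρ ≤ 1 := by rw [hρ, div_le_one hN0]; exact hRg.r3
  have hρN : N ^ (-η) ≤ ρ := by
    rw [hρ, le_div_iff₀ hN0]
    refine le_trans (le_of_eq ?_) hRg.r4
    rw [show (1 - η : ℝ) = -η + 1 by ring, Real.rpow_add hN0, Real.rpow_one]
  rcases F.eq_empty_or_nonempty with rfl | ⟨t₀, ht₀⟩
  · rw [card_empty, Nat.cast_zero]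
    have : 0 ≤ C₀ * Z + 2 * C₁ := by nlinarith [mul_nonneg (show 0 ≤ C₀ by linarith) hZ0]
    positivity
  have hY0 : 0 < Y := by
    obtain ⟨hc, -⟩ := hF t₀ ht₀
    have := hc.z1
    have := hc.z2
    linarith
  have hRg' : Rg η₁ N Y Y₂ := by
    refine ⟨hRg.r1, hRg.r2.trans ?_, hRg.r3, le_trans ?_ hRg.r4⟩
    · exact mul_le_mul_of_nonneg_right (Real.rpow_le_rpow_of_exponent_le hN1 (by linarith)) hY0.le
    · exact Real.rpow_le_rpow_of_exponent_le hN1 (by linarith)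
  obtain ⟨X, hX⟩ : ∃ X, X = ρ ^ (-(1.05 : ℝ)) := ⟨_, rfl⟩
  rw [← hX] at hF
  have hX0 : 0 < X := by rw [hX]; exact Real.rpow_pos_of_pos hρ0 _
  have hXN : X ≤ N ^ η₁ := by
    have h1 : X ≤ (N ^ (-η)) ^ (-(1.05 : ℝ)) := by
      rw [hX]
      exact Real.rpow_le_rpow_of_nonpos (Real.rpow_pos_of_pos hN0 _) hρN (by norm_num)
    refine h1.trans ?_
    rw [← Real.rpow_mul hN0.le]
    refine Real.rpow_le_rpow_of_exponent_le hN1 ?_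
    have : -η * -(1.05 : ℝ) = 1.05 * η := by ring
    rw [this]
    linarith
  -- the primes
  set P : Finset ℕ := (range (⌊X⌋₊ + 1)).filter (fun p => p.Prime ∧ N ≤ (p : ℝ) ^ 2 * (Y * Y₂)) with hP
  have hcover : F ⊆ P.biUnion fun p => F.filter fun t => BadP p t := by
    intro t ht
    obtain ⟨hc, p, hp, hp2, hpN, hpX, hpd, hpz⟩ := hF t ht
    rw [mem_biUnion]
    refine ⟨p, ?_, ?_⟩
    · rw [hP, mem_filter, mem_range]
      exact ⟨Nat.lt_succ_of_le (Nat.le_floor hpX), hp, hpN⟩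
    · rw [mem_filter]
      exact ⟨ht, hSTW t p hc.tt hp hp2 hpd hpz⟩
  have hP1 : ∀ p ∈ P, p.Prime ∧ N ≤ (p : ℝ) ^ 2 * (Y * Y₂) ∧ (p : ℝ) ≤ X := by
    intro p hp
    rw [hP, mem_filter, mem_range] at hp
    exact ⟨hp.2.1, hp.2.2, (Nat.cast_le.2 (Nat.lt_succ_iff.1 hp.1)).trans (Nat.floor_le hX0.le)⟩
  have hone : ∀ p ∈ P, ((F.filter fun t => BadP p t).card : ℝ) ≤
      (C₀ * ((1 / (p : ℝ) ^ (3 / 2 : ℝ)) * ρ ^ (1 / 8 : ℝ)) +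
        C₁ * (ρ ^ (3 / 2 : ℝ) * (X ^ (1 / 4 : ℝ) * (1 + X * ρ)))) * (Y * Y₂) := by
    intro p hp
    obtain ⟨hpp, hpN, hpX⟩ := hP1 p hp
    have hp0 : (0 : ℝ) < p := by exact_mod_cast hpp.pos
    have h1 := hT N Y Y₂ hNN hRg' p hpp (by rw [Nat.dvd_one]; exact hpp.one_lt.ne') (hpX.trans hXN)
      (F.filter fun t => BadP p t) (by
        intro t ht
        rw [mem_filter] at ht
        refine ⟨(hF t ht.1).1, ⟨?_, ?_, ?_, ?_, ?_⟩, ht.2⟩ <;> simp)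
    refine h1.trans (mul_le_mul_of_nonneg_right ?_ hS0.le)
    rw [← hρ]
    refine add_le_add ?_ ?_
    · rw [Nat.cast_one, one_pow, mul_one, div_eq_mul_inv]
      refine mul_le_mul_of_nonneg_left ?_ (by linarith)
      -- `1/p² ≤ p^(-3/2) ρ^(1/8)`
      have h2 : (p : ℝ) ^ 2 = (p : ℝ) ^ (3 / 2 : ℝ) * (p : ℝ) ^ (1 / 2 : ℝ) := by
        rw [← Real.rpow_add hp0, ← Real.rpow_natCast]
        norm_num
      have h2' : ((p : ℝ) ^ 2)⁻¹ = 1 / (p : ℝ) ^ (3 / 2 : ℝ) * ((p : ℝ) ^ (1 / 2 : ℝ))⁻¹ := by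
        rw [h2, mul_inv]
        congr 1
        exact (one_div _).symm
      rw [h2']
      refine mul_le_mul_of_nonneg_left ?_ (by positivity)
      have h3 : 1 ≤ (p : ℝ) ^ 2 * ρ := by
        rw [hρ, mul_div_assoc', le_div_iff₀ hN0, one_mul]
        exact hpN
      have h4 : 1 ≤ (p : ℝ) ^ (1 / 2 : ℝ) * ρ ^ (1 / 4 : ℝ) := by
        have h5 : ((p : ℝ) ^ 2 * ρ) ^ (1 / 4 : ℝ) = (p : ℝ) ^ (1 / 2 : ℝ) * ρ ^ (1 / 4 : ℝ) := by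
          rw [Real.mul_rpow (by positivity) hρ0.le, ← Real.rpow_natCast, ← Real.rpow_mul hp0.le]
          norm_num
        rw [← h5]
        exact Real.one_le_rpow h3 (by norm_num)
      have h6 : ρ ^ (1 / 4 : ℝ) ≤ ρ ^ (1 / 8 : ℝ) := Real.rpow_le_rpow_of_exponent_ge hρ0 hρ1 (by norm_num)
      refine le_trans ?_ h6
      rw [inv_le_iff_one_le_mul₀ (Real.rpow_pos_of_pos hp0 (1 / 2 : ℝ))]
      linarith [mul_comm ((p : ℝ) ^ (1 / 2 : ℝ)) (ρ ^ (1 / 4 : ℝ))]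
    · rw [mul_assoc C₁, mul_assoc C₁, mul_assoc (ρ ^ (3 / 2 : ℝ))]
      refine mul_le_mul_of_nonneg_left ?_ (by linarith)
      refine mul_le_mul_of_nonneg_left ?_ (by positivity)
      refine mul_le_mul (Real.rpow_le_rpow hp0.le hpX (by norm_num)) ?_ (by positivity) (by positivity)
      have := mul_le_mul_of_nonneg_right hpX hρ0.le
      linarith
  have hcardF : (F.card : ℝ) ≤ ∑ p ∈ P, ((F.filter fun t => BadP p t).card : ℝ) := by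
    have h1 := (card_le_card hcover).trans card_biUnion_le
    exact_mod_cast h1
  refine hcardF.trans ((sum_le_sum hone).trans ?_)
  rw [← sum_mul, sum_add_distrib, ← mul_sum, ← sum_mul, sum_const, nsmul_eq_mul]
  refine mul_le_mul_of_nonneg_right ?_ hS0.le
  have hPc : (P.card : ℝ) ≤ X := by
    have h1 : P ⊆ Icc 1 ⌊X⌋₊ := by
      intro p hp
      rw [hP, mem_filter, mem_range] at hp
      rw [mem_Icc]
      exact ⟨hp.2.1.one_lt.le, Nat.lt_succ_iff.1 hp.1⟩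
    have h2 := card_le_card h1
    rw [Nat.card_Icc, Nat.add_sub_cancel] at h2
    exact (Nat.cast_le.2 h2).trans (Nat.floor_le hX0.le)
  have hsum : ∑ p ∈ P, 1 / (p : ℝ) ^ (3 / 2 : ℝ) ≤ Z := by
    rw [hZ]
    exact hsm.sum_le_tsum _ fun n _ => by positivity
  have hpow := CTB_pow hρ0 hρ1
  rw [← hX] at hpow
  have h7 : (P.card : ℝ) * (C₁ * (ρ ^ (3 / 2 : ℝ) * (X ^ (1 / 4 : ℝ) * (1 + X * ρ)))) ≤ C₁ * (2 * ρ ^ (1 / 8 : ℝ)) := by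
    have h8 : (P.card : ℝ) * (C₁ * (ρ ^ (3 / 2 : ℝ) * (X ^ (1 / 4 : ℝ) * (1 + X * ρ)))) ≤
        X * (C₁ * (ρ ^ (3 / 2 : ℝ) * (X ^ (1 / 4 : ℝ) * (1 + X * ρ)))) :=
      mul_le_mul_of_nonneg_right hPc (by positivity)
    refine h8.trans ?_
    have h9 : X * (C₁ * (ρ ^ (3 / 2 : ℝ) * (X ^ (1 / 4 : ℝ) * (1 + X * ρ)))) =
        C₁ * (ρ ^ (3 / 2 : ℝ) * (X * (X ^ (1 / 4 : ℝ) * (1 + X * ρ)))) := by ring
    rw [h9]
    exact mul_le_mul_of_nonneg_left hpow (by linarith)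
  have h10 : C₀ * ((∑ p ∈ P, 1 / (p : ℝ) ^ (3 / 2 : ℝ)) * ρ ^ (1 / 8 : ℝ)) ≤ C₀ * (Z * ρ ^ (1 / 8 : ℝ)) :=
    mul_le_mul_of_nonneg_left (mul_le_mul_of_nonneg_right hsum (by positivity)) (by linarith)
  linarith

end Pool.Agent.T7
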